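import Pool.Agent.H50Z.Hur.Defs

namespace Pool.Agent.H50Z.Mic

/-- Menger's property. -/
def IsMenger (X : Type) [TopologicalSpace X] : Prop :=
  ∀ U : ℕ → Set (Set X), (∀ n, (∀ u ∈ U n, IsOpen u) ∧ ⋃₀ U n = Set.univ) →
    ∃ F : ℕ → Set (Set X), (∀ n, (F n).Finite ∧ F n ⊆ U n) ∧ (⋃ n, ⋃₀ F n) = Set.univ

/-- An uncountable set of reals meeting every Lebesgue null set in a countable set. -/
def IsSierpinski (S : Set ℝ) : Prop :=
  ¬ S.Countable ∧ ∀ N : Set ℝ, MeasureTheory.volume N = 0 → (S ∩ N).Countable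

end Pool.Agent.H50Z.Mic
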