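import Pool.Agent.H50Z.Mic.Defs

namespace Pool.Agent.H50Z.Mic

open Set Filter Topology MeasureTheory Pool.Agent.H50Z.Hur

theorem menger_of_hurewicz {X : Type} [TopologicalSpace X] (h : IsHurewicz X) : IsMenger X := by
  intro U hU
  obtain ⟨F, hF, hx⟩ := h U hU
  refine ⟨F, hF, eq_univ_of_forall fun x => ?_⟩
  by_contra hc
  simp only [mem_iUnion, not_exists] at hc
  exact infinite_univ ((hx x).subset fun n _ => hc n)

theorem split {S : Set ℝ} (hS : IsSierpinski S) : ∃ A B : Set ℝ, Disjoint A B ∧ ¬ A.Countable ∧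
    Cardinal.mk (A ∪ B : Set ℝ) ≤ Cardinal.aleph 1 ∧
    ∀ U : Set ℝ, IsOpen U → B ⊆ U → (A \ U).Countable := by
  let ι : Type := (Cardinal.aleph 1 : Cardinal.{0}).out
  have hι : Cardinal.mk ι = Cardinal.aleph 1 := Cardinal.mk_out _
  have hunc : Uncountable ι := by
    rw [← Cardinal.aleph0_lt_mk_iff, hι]
    exact Cardinal.aleph0_lt_aleph_one
  have h1 : Cardinal.mk (ι × ι) ≤ Cardinal.mk S := by
    rw [Cardinal.mk_prod, Cardinal.lift_id, hι, Cardinal.mul_eq_self (Cardinal.aleph0_le_aleph 1)]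
    by_contra hc
    exact hS.1 ((Cardinal.countable_iff_lt_aleph_one _).2 (not_le.1 hc))
  obtain ⟨j⟩ := (Cardinal.le_def _ _).1 h1
  let B : ι → Set ℝ := fun ξ => range fun η => (j (ξ, η) : ℝ)
  have hBS : ∀ ξ, B ξ ⊆ S := by
    rintro ξ _ ⟨η, rfl⟩
    exact (j (ξ, η)).2
  have hBu : ∀ ξ, ¬ (B ξ).Countable := by
    intro ξ hc
    have hinj : Function.Injective fun η => (j (ξ, η) : ℝ) := fun a b h =>
      (Prod.mk.inj (j.injective (Subtype.ext h))).2
    have h2 := hc.preimage_of_injOn (f := fun η => (j (ξ, η) : ℝ)) hinj.injOn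
    rw [preimage_range] at h2
    exact not_countable_univ h2
  have hpos : ∀ ξ, 0 < volume (toMeasurable volume (B ξ)) := by
    intro ξ
    rw [measure_toMeasurable, pos_iff_ne_zero]
    intro h0
    exact hBu ξ ((hS.2 _ h0).mono (subset_inter (hBS ξ) subset_rfl))
  have h2 : ¬ Pairwise (Function.onFun (AEDisjoint volume) fun ξ => toMeasurable volume (B ξ)) := by
    intro hd
    have := Measure.countable_meas_pos_of_disjoint_iUnion₀
      (fun ξ => (measurableSet_toMeasurable volume (B ξ)).nullMeasurableSet) hd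
    simp only [hpos, setOf_true] at this
    exact not_countable_univ this
  simp only [Pairwise, not_forall] at h2
  obtain ⟨η, ξ, hne, h3⟩ := h2
  refine ⟨B η ∩ toMeasurable volume (B ξ), B ξ, ?_, fun hc => h3 ?_, ?_, fun U hU hBU => ?_⟩
  · rw [Set.disjoint_left]
    rintro _ ⟨⟨a, rfl⟩, -⟩ ⟨b, hb⟩
    exact hne (Prod.mk.inj (j.injective (Subtype.ext hb))).1.symm
  · show volume (toMeasurable volume (B η) ∩ toMeasurable volume (B ξ)) = 0
    rw [Measure.measure_toMeasurable_inter_of_sFinite (measurableSet_toMeasurable _ _)]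
    exact hc.measure_zero _
  · refine le_trans (Cardinal.mk_le_mk_of_subset (t := range fun p => (j p : ℝ)) ?_) ?_
    · rintro _ (⟨⟨a, rfl⟩, -⟩ | ⟨a, rfl⟩) <;> exact ⟨_, rfl⟩
    · refine Cardinal.mk_range_le.trans ?_
      rw [Cardinal.mk_prod, Cardinal.lift_id, hι, Cardinal.mul_eq_self (Cardinal.aleph0_le_aleph 1)]
  · have h4 : volume (toMeasurable volume (B ξ) ∩ Uᶜ) = 0 := by
      rw [Measure.measure_toMeasurable_inter_of_sFinite hU.measurableSet.compl,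
        ← diff_eq, diff_eq_empty.2 hBU]
      simp
    exact (hS.2 _ h4).mono fun x hx => mem_inter (hBS η hx.1.1) (mem_inter hx.1.2 hx.2)

theorem hurewicz_of_small {Y : Type} [TopologicalSpace Y] [Nonempty Y]
    (hc : Cardinal.mk Y < boundingNumber)
    (hL : ∀ U : Set (Set Y), (∀ u ∈ U, IsOpen u) → ⋃₀ U = univ →
      ∃ V ⊆ U, V.Countable ∧ ⋃₀ V = univ) : IsHurewicz Y := by
  intro U hU
  have h1 : ∀ n, ∃ v : ℕ → Set Y, (∀ k, v k ∈ U n) ∧ ∀ y, ∃ k, y ∈ v k := by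
    intro n
    obtain ⟨V, hV1, hV2, hV3⟩ := hL (U n) (hU n).1 (hU n).2
    have hne : V.Nonempty := by
      obtain ⟨y⟩ := ‹Nonempty Y›
      obtain ⟨u, hu, -⟩ : y ∈ ⋃₀ V := hV3 ▸ mem_univ y
      exact ⟨u, hu⟩
    obtain ⟨v, rfl⟩ := hV2.exists_eq_range hne
    refine ⟨v, fun k => hV1 ⟨k, rfl⟩, fun y => ?_⟩
    obtain ⟨_, ⟨k, rfl⟩, hk⟩ : y ∈ ⋃₀ range v := hV3 ▸ mem_univ y
    exact ⟨k, hk⟩
  choose v hv1 hv2 using h1
  choose f hf using hv2
  have h2 : ¬ IsUnbounded (range fun y n => f n y) := by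
    intro h
    have h3 : boundingNumber ≤ Cardinal.mk (range fun y n => f n y) := csInf_le' ⟨_, h, rfl⟩
    exact absurd (h3.trans Cardinal.mk_range_le) (not_le.2 hc)
  obtain ⟨g, hg⟩ := not_not.1 h2
  refine ⟨fun n => v n '' Iic (g n), fun n => ⟨(finite_Iic _).image _, ?_⟩, fun y => ?_⟩
  · rintro _ ⟨k, -, rfl⟩
    exact hv1 n k
  · refine (hg _ ⟨y, rfl⟩).subset fun n hn => ?_
    by_contra h3
    exact hn ⟨_, ⟨f n y, mem_Iic.2 (not_lt.1 h3), rfl⟩, hf n y⟩

open Classical in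
/-- the points of `A ∪ B`, with the points of `A` isolated -/
def Mic (A B : Set ℝ) : Set (ℝ × (A → Bool)) :=
  {p | p.1 ∈ A ∪ B ∧ p.2 = fun a : A => decide (p.1 = a)}

theorem mic_inj (A B : Set ℝ) : Function.Injective fun p : Mic A B => p.1.1 := by
  intro p q h
  apply Subtype.ext
  apply Prod.ext h
  rw [p.2.2, q.2.2]
  have h' : p.1.1 = q.1.1 := h
  rw [h']

theorem mic_nhds {A B : Set ℝ} (p : Mic A B) (hp : p.1.1 ∉ A) {u : Set (Mic A B)} (hu : IsOpen u)
    (hpu : p ∈ u) : ∃ V : Set ℝ, IsOpen V ∧ p.1.1 ∈ V ∧ ∀ q : Mic A B, q.1.1 ∈ V → q ∈ u := by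
  classical
  obtain ⟨w, hw, rfl⟩ := isOpen_induced_iff.1 hu
  have h1 : ContinuousAt (fun x : ℝ => (x, fun a : A => decide (x = a))) p.1.1 := by
    refine continuousAt_id.prodMk (continuousAt_pi.2 fun a => ?_)
    have h2 : p.1.1 ≠ a := fun h => hp (h ▸ a.2)
    refine continuousAt_const.congr (f := fun _ => false) ?_
    filter_upwards [isOpen_ne.mem_nhds h2] with x hx
    simp [hx]
  have h3 : ∀ q : Mic A B, (q.1.1, fun a : A => decide (q.1.1 = a)) = q.1 := fun q =>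
    Prod.ext rfl (by convert q.2.2.symm)
  have h4 := h1.preimage_mem_nhds (hw.mem_nhds (by rw [h3]; exact hpu))
  obtain ⟨V, hV1, hV2, hV3⟩ := mem_nhds_iff.1 h4
  refine ⟨V, hV2, hV3, fun q hq => ?_⟩
  have h5 := hV1 hq
  rwa [mem_preimage, h3] at h5

theorem mic_lindelof {A B : Set ℝ}
    (hc : ∀ U : Set ℝ, IsOpen U → B \ A ⊆ U → (A \ U).Countable) (U : Set (Set (Mic A B)))
    (hU : ∀ u ∈ U, IsOpen u) (hcov : ⋃₀ U = univ) : ∃ V ⊆ U, V.Countable ∧ ⋃₀ V = univ := by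
  classical
  have h0 : ∀ p : Mic A B, ∃ u ∈ U, p ∈ u := fun p => (hcov ▸ mem_univ p : p ∈ ⋃₀ U)
  choose u hu1 hu2 using h0
  have h1 : ∀ p : {p : Mic A B // p.1.1 ∉ A}, ∃ V : Set ℝ, IsOpen V ∧ p.1.1.1 ∈ V ∧
      ∀ q : Mic A B, q.1.1 ∈ V → q ∈ u p.1 := fun p => mic_nhds p.1 p.2 (hU _ (hu1 _)) (hu2 _)
  choose V hV1 hV2 hV3 using h1
  obtain ⟨T, hT1, hT2⟩ := TopologicalSpace.isOpen_iUnion_countable V hV1
  have h2 := hc (⋃ p, V p) (isOpen_iUnion hV1) fun b hb =>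
    mem_iUnion.2 ⟨⟨⟨(b, fun a : A => decide (b = a)), Or.inr hb.1, by congr⟩, hb.2⟩, hV2 _⟩
  have h3 := h2.preimage_of_injOn (mic_inj A B).injOn
  refine ⟨(fun p => u p.1) '' T ∪ u '' ((fun p : Mic A B => p.1.1) ⁻¹' (A \ ⋃ p, V p)), ?_,
    (hT1.image _).union (h3.image _), eq_univ_of_forall fun q => ?_⟩
  · rintro _ (⟨p, -, rfl⟩ | ⟨p, -, rfl⟩) <;> exact hu1 _
  · by_cases h4 : q.1.1 ∈ ⋃ p, V p
    · rw [← hT2] at h4
      obtain ⟨p, hp, h5⟩ := mem_iUnion₂.1 h4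
      exact ⟨_, Or.inl ⟨p, hp, rfl⟩, hV3 p q h5⟩
    · refine ⟨_, Or.inr ⟨q, ⟨?_, h4⟩, rfl⟩, hu2 q⟩
      by_contra h5
      exact h4 (mem_iUnion.2 ⟨⟨q, h5⟩, hV2 _⟩)

theorem mic_not_menger {A B : Set ℝ} (hA : ¬ A.Countable) : ¬ IsMenger (A × Mic A B) := by
  classical
  intro h
  let W : Option A → Set (A × Mic A B) := fun o =>
    o.elim {z | (z.1 : ℝ) ≠ z.2.1.1} fun a => {z | z.2.1.2 a = true}
  obtain ⟨F, hF, hx⟩ := h (fun _ => range W) fun _ => ⟨by
    rintro _ ⟨o, rfl⟩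
    cases o with
    | none => exact isOpen_ne_fun (by fun_prop) (by fun_prop)
    | some a =>
      exact (isOpen_discrete {true}).preimage
        (f := fun z : A × Mic A B => z.2.1.2 a) (by fun_prop), by
    apply eq_univ_of_forall
    intro z
    by_cases hz : (z.1 : ℝ) = z.2.1.1
    · refine ⟨_, ⟨some z.1, rfl⟩, ?_⟩
      show z.2.1.2 z.1 = true
      rw [z.2.2.2]
      simp [hz]
    · exact ⟨_, ⟨none, rfl⟩, hz⟩⟩
  have h1 : (⋃ n, F n).Countable := countable_iUnion fun n => (hF n).1.countable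
  let pt : A → A × Mic A B := fun a =>
    (a, ⟨(a, fun a' : A => decide ((a : ℝ) = a')), Or.inl a.2, by congr⟩)
  have h2 : ∀ a : A, ∀ o, pt a ∈ W o → o = some a := by
    intro a o ho
    cases o with
    | none => exact (ho rfl).elim
    | some a' =>
      have h3 : decide ((a : ℝ) = a') = true := ho
      rw [Subtype.ext (of_decide_eq_true h3)]
  have h3 : Function.Injective fun a : A => W (some a) := by
    intro a a' h
    have h4 : pt a ∈ W (some a) := by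
      show decide ((a : ℝ) = a) = true
      simp
    have h5 : W (some a) = W (some a') := h
    rw [h5] at h4
    exact (Option.some.inj (h2 a _ h4)).symm
  have h4 := h1.preimage_of_injOn h3.injOn
  apply hA
  rw [← countable_coe_iff, ← countable_univ_iff]
  refine h4.mono fun a _ => ?_
  obtain ⟨n, w, hw, h5⟩ := mem_iUnion.1 (hx ▸ mem_univ (pt a) : pt a ∈ ⋃ n, ⋃₀ F n)
  obtain ⟨o, rfl⟩ := (hF n).2 hw
  rw [h2 a o h5] at hw
  exact mem_iUnion.2 ⟨n, hw⟩

theorem main (hb : Cardinal.aleph 1 < boundingNumber) (hS : ∃ S : Set ℝ, IsSierpinski S) :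
    ∃ X : Set ℝ, Cardinal.mk X < boundingNumber ∧
      ∃ (Y : Type) (_ : TopologicalSpace Y), T35Space Y ∧ IsHurewicz Y ∧ IsMenger Y ∧
        ¬ IsHurewicz (X × Y) ∧ ¬ IsMenger (X × Y) := by
  classical
  obtain ⟨S, hS⟩ := hS
  obtain ⟨A, B, h1, h2, h3, h4⟩ := split hS
  have hne : A.Nonempty := by
    by_contra h
    rw [not_nonempty_iff_eq_empty] at h
    exact h2 (h ▸ countable_empty)
  obtain ⟨a, ha⟩ := hne
  have : Nonempty (Mic A B) := ⟨⟨(a, fun a' : A => decide (a = a')), Or.inl ha, by congr⟩⟩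
  have hH : IsHurewicz (Mic A B) := by
    apply hurewicz_of_small
    · refine lt_of_le_of_lt (le_trans ?_ h3) hb
      exact Cardinal.mk_le_of_injective (f := fun p : Mic A B => (⟨p.1.1, p.2.1⟩ : (A ∪ B : Set ℝ)))
        fun p q h => mic_inj A B (congrArg Subtype.val h)
    · exact mic_lindelof fun U hU hBU => h4 U hU fun b hb =>
        hBU ⟨hb, fun h => disjoint_left.1 h1 h hb⟩
  exact ⟨A, ((Cardinal.mk_le_mk_of_subset subset_union_left).trans h3).trans_lt hb, Mic A B,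
    inferInstance, inferInstance, hH, menger_of_hurewicz hH,
    fun h => mic_not_menger h2 (menger_of_hurewicz h), mic_not_menger h2⟩

end Pool.Agent.H50Z.Mic
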